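import Pool.Agent.Q58.DT.Ten

/-!
# Project DT, jobs TEB, TFE, TFX: energy bounds and vanishing flux
-/

namespace Pool.Agent.Q58.DT

open Set Filter Topology MeasureTheory Pool.Agent.Q186.DT

/-- an integral Gronwall inequality -/
lemma gron {T A B : ℝ} {f : ℝ → ℝ} (hT : 0 ≤ T) (hf : ContinuousOn f (Icc 0 T)) (hB : 0 ≤ B)
    (hA : 0 ≤ A + T * B) (h : ∀ t ∈ Icc 0 T, f t ≤ A + ∫ r in (0:ℝ)..t, (f r + B)) :
    ∀ t ∈ Icc 0 T, f t ≤ (A + T * B) * Real.exp T := by
  set φ : ℝ → ℝ := IccExtend hT (Set.domRestrict (Icc 0 T) f) with hφ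
  have hφc : Continuous φ := (continuousOn_iff_continuous_domRestrict.1 hf).Icc_extend'
  have hφe : ∀ t ∈ Icc 0 T, φ t = f t := fun t ht => by
    simp only [hφ]
    rw [IccExtend_of_mem _ _ ht]
    rfl
  set G : ℝ → ℝ := fun t => A + T * B + ∫ r in (0:ℝ)..t, φ r with hG
  have hGd : ∀ t, HasDerivAt G (φ t) t := fun t =>
    (intervalIntegral.integral_hasDerivAt_right (hφc.intervalIntegrable _ _)
      (hφc.stronglyMeasurableAtFilter _ _) hφc.continuousAt).const_add _
  have hint : ∀ t ∈ Icc 0 T, (∫ r in (0:ℝ)..t, (f r + B)) = (∫ r in (0:ℝ)..t, φ r) + t * B := by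
    intro t ht
    have e1 : (∫ r in (0:ℝ)..t, (f r + B)) = ∫ r in (0:ℝ)..t, (φ r + B) := by
      apply intervalIntegral.integral_congr
      intro r hr
      rw [uIcc_of_le ht.1] at hr
      show f r + B = φ r + B
      rw [hφe r ⟨hr.1, le_trans hr.2 ht.2⟩]
    rw [e1, intervalIntegral.integral_add (hφc.intervalIntegrable _ _)
      _root_.intervalIntegrable_const, intervalIntegral.integral_const, smul_eq_mul, sub_zero]
  have hle : ∀ t ∈ Icc 0 T, φ t ≤ G t := by
    intro t ht
    have h1 := h t ht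
    rw [hint t ht] at h1
    rw [hφe t ht]
    simp only [hG]
    have : t * B ≤ T * B := mul_le_mul_of_nonneg_right ht.2 hB
    linarith
  set H : ℝ → ℝ := fun t => G t * Real.exp (-t) with hH
  have hHd : ∀ t, HasDerivAt H ((φ t - G t) * Real.exp (-t)) t := by
    intro t
    have h1 := (hGd t).mul ((hasDerivAt_id t).neg.exp)
    have e : φ t * Real.exp (-id t) + G t * (Real.exp (-id t) * -1) =
        (φ t - G t) * Real.exp (-t) := by
      simp only [id]
      ring
    rw [← e]
    exact h1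
  have hanti : AntitoneOn H (Icc 0 T) := by
    apply antitoneOn_of_deriv_nonpos (convex_Icc 0 T)
    · exact fun t _ => (hHd t).continuousAt.continuousWithinAt
    · exact fun t _ => (hHd t).differentiableAt.differentiableWithinAt
    · intro t ht
      rw [interior_Icc] at ht
      rw [(hHd t).deriv]
      have h1 := hle t ⟨ht.1.le, ht.2.le⟩
      have h2 := Real.exp_pos (-t)
      exact mul_nonpos_of_nonpos_of_nonneg (by linarith) h2.le
  intro t ht
  have h1 := hanti (left_mem_Icc.2 hT) ht ht.1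
  have h2 : H 0 = A + T * B := by simp [hH, hG]
  rw [h2] at h1
  have h3 : G t ≤ (A + T * B) * Real.exp t := by
    have h4 : G t = H t * Real.exp t := by
      simp only [hH]
      rw [mul_assoc, ← Real.exp_add]
      simp
    rw [h4]
    exact mul_le_mul_of_nonneg_right h1 (Real.exp_pos t).le
  have h5 : (A + T * B) * Real.exp t ≤ (A + T * B) * Real.exp T :=
    mul_le_mul_of_nonneg_left (Real.exp_le_exp.2 ht.2) hA
  have h6 := hle t ht
  rw [hφe t ht] at h6
  linarith

lemma PE_nonneg {K : ℕ} {L g : ℝ} (hL : 0 ≤ L) (hg : 0 ≤ g) (V : Nd K → ℝ → ℝ) (N : ℕ) (t : ℝ) :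
    0 ≤ PE L g V N t := sm_nonneg fun w _ => by positivity

lemma PD_nonneg {K : ℕ} {g : ℝ} (hg : 0 ≤ g) (V : Nd K → ℝ → ℝ) (N : ℕ) (t : ℝ) :
    0 ≤ PD g V N t := sm_nonneg fun w _ => by positivity

lemma PF_le {K : ℕ} {L g : ℝ} (hL : 0 ≤ L) (hg : 0 ≤ g) (F V : Nd K → ℝ → ℝ) (N : ℕ) (t : ℝ) :
    2 * PF L g F V N t ≤ PE L g V N t + PE L g F N t := by
  simp only [PF, PE]
  rw [← sm_mul, ← sm_add]
  apply sm_le_sm
  intro w _
  have h1 : 0 ≤ (g / L) ^ w.length := by positivity
  have h2 : 0 ≤ (V w t - F w t) ^ 2 := sq_nonneg _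
  nlinarith

lemma sol_cont {K : ℕ} {L g k T : ℝ} {F V : Nd K → ℝ → ℝ} (h : Sol L g k T F V) (w : Nd K) :
    ContinuousOn (V w) (Icc 0 T) := fun t ht => (h w t ht).continuousWithinAt

lemma trt_cont {K : ℕ} {L g k T : ℝ} {N : ℕ} {F : Nd K → ℝ → ℝ} {a : Nd K → ℝ}
    {U : Nd K → ℝ → ℝ} (h : TrT L g k T N F a U) (w : Nd K) (hw : w.length ≤ N + 1) :
    ContinuousOn (U w) (Icc 0 T) := by
  rcases Nat.lt_or_ge N w.length with h1 | h1
  · cases w with
    | nil => simp at h1
    | cons i u =>
      have hu : u.length = N := by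
        simp only [List.length_cons] at h1 hw
        omega
      have h2 : ContinuousOn (U u) (Icc 0 T) := fun t ht =>
        (h.deriv u hu.le t ht).continuousWithinAt
      have h3 : ContinuousOn (fun t => max (U u t) 0) (Icc 0 T) := by
        intro t ht
        exact (h2 t ht).max continuousWithinAt_const
      exact h3.congr fun t ht => h.last i u hu t ht
  · exact fun t ht => (h.deriv w h1 t ht).continuousWithinAt

lemma frc_nonneg {K : ℕ} {L g T EF : ℝ} {F : Nd K → ℝ → ℝ} {h : ℕ → ℝ} (hL : 0 ≤ L) (hg : 0 ≤ g)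
    (hT : 0 ≤ T) (hF : Frc L g T EF F h) : 0 ≤ EF :=
  le_trans (PE_nonneg hL hg F 0 0) (hF.en 0 0 ⟨le_refl _, hT⟩)

lemma trt_fl_nonneg {K : ℕ} {L g k T : ℝ} {N : ℕ} {F : Nd K → ℝ → ℝ} {a : Nd K → ℝ}
    {U : Nd K → ℝ → ℝ} (hg : 0 ≤ g) (h : TrT L g k T N F a U) (t : ℝ) (ht : t ∈ Icc 0 T) :
    0 ≤ fl g U N t := by
  simp only [fl, ch]
  apply mul_nonneg (by positivity)
  apply Finset.sum_nonneg
  intro w hw
  apply mul_nonneg (sq_nonneg _)
  apply Finset.sum_nonneg
  intro i _
  rw [h.last i w ((mem_lev _ _).1 hw) t ht]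
  exact le_max_right _ _

/-- Job TEB (depends on the energy identity) -/
theorem teb : P_TEB := by
  intro K L g k T EF E0 N F h a U hL hg hk hT hF hU hE t ht
  have hL0 : 0 < L := by linarith
  have hg0 : 0 < g := by linarith
  have hEF := frc_nonneg hL0.le hg0.le hT.le hF
  have hE0 : 0 ≤ E0 := le_trans (PE_nonneg hL0.le hg0.le U N 0) hE
  have hUc := trt_cont hU
  have hUc' : ∀ w : Nd K, w.length ≤ N → ContinuousOn (U w) (Icc 0 T) :=
    fun w hw => hUc w (by omega)
  apply gron hT.le (PE_cont hUc') hEF (by positivity) _ t ht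
  intro r hr
  have h1 := ten K L g k T F U N hL0 hg0 hF.cont hUc hU.deriv 0 r (le_refl _) hr.1 hr.2
  have h2 : 0 ≤ ∫ r in (0:ℝ)..r, PD g U N r :=
    intervalIntegral.integral_nonneg hr.1 fun s _ => PD_nonneg hg0.le U N s
  have h3 : 0 ≤ ∫ r in (0:ℝ)..r, fl g U N r :=
    intervalIntegral.integral_nonneg hr.1 fun s hs =>
      trt_fl_nonneg hg0.le hU s ⟨hs.1, le_trans hs.2 hr.2⟩
  have hsub : uIcc 0 r ⊆ Icc 0 T := by
    rw [uIcc_of_le hr.1]
    exact Icc_subset_Icc_right hr.2
  have h4 : (∫ r in (0:ℝ)..r, 2 * PF L g F U N r) ≤ ∫ r in (0:ℝ)..r, (PE L g U N r + EF) := by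
    apply intervalIntegral.integral_mono_on hr.1
    · exact (((PF_cont hF.cont hUc').mono hsub).intervalIntegrable).const_mul _
    · exact (((PE_cont hUc').mono hsub).intervalIntegrable).add
        _root_.intervalIntegrable_const
    · intro s hs
      have := PF_le hL0.le hg0.le F U N s
      have := hF.en N s ⟨hs.1, le_trans hs.2 hr.2⟩
      linarith
  rw [intervalIntegral.integral_const_mul] at h4
  have h5 : 0 ≤ 2 * k * (∫ r in (0:ℝ)..r, PD g U N r) := by positivity
  linarith

/-- Job TFE -/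
theorem tfe : P_TFE := by
  intro K L g k T EF E0 m F V h hK hL hg hk hT hF hV hlo hE
  have hL0 : 0 < L := by linarith
  have hg0 : 0 < g := by linarith
  have hEF := frc_nonneg hL0.le hg0.le hT.le hF
  have hE0 : 0 ≤ E0 := le_trans (PE_nonneg hL0.le hg0.le V 0 0) (hE 0)
  have hVc := sol_cont hV
  have hK' : (1 : ℝ) ≤ K := by exact_mod_cast hK
  have hKg : 1 ≤ (K : ℝ) * g := by nlinarith
  have hsg : K * g * sg K g k ≤ k / 2 := by
    simp only [sg]
    rw [mul_div_assoc', div_le_div_iff₀ (by positivity) (by norm_num)]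
    have e : 0 ≤ K * g * k * (K * g) := by positivity
    have e2 : 0 ≤ K * g * k := by positivity
    nlinarith
  have hsg0 : 0 < sg K g k := by
    simp only [sg]
    positivity
  -- the basic inequality for large `N`
  have key : ∀ N, m ≤ N → ∀ t ∈ Icc 0 T, PE L g V N t + k * (∫ r in (0:ℝ)..t, PD g V N r) ≤
      E0 + ∫ r in (0:ℝ)..t, (PE L g V N r + EF) := by
    intro N hN t ht
    have h1 := ten K L g k T F V N hL0 hg0 hF.cont (fun w _ => hVc w) (fun w _ => hV w)
      0 t (le_refl _) ht.1 ht.2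
    have hsub : uIcc 0 t ⊆ Icc 0 T := by
      rw [uIcc_of_le ht.1]
      exact Icc_subset_Icc_right ht.2
    have hiD : IntervalIntegrable (PD g V N) volume 0 t :=
      ((PD_cont fun w _ => hVc w).mono hsub).intervalIntegrable
    have hiE : IntervalIntegrable (PE L g V N) volume 0 t :=
      ((PE_cont fun w _ => hVc w).mono hsub).intervalIntegrable
    have hiF : IntervalIntegrable (PF L g F V N) volume 0 t :=
      ((PF_cont hF.cont fun w _ => hVc w).mono hsub).intervalIntegrable
    have hif : IntervalIntegrable (fl g V N) volume 0 t :=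
      ((fl_cont fun w _ => hVc w).mono hsub).intervalIntegrable
    have h3 : (∫ r in (0:ℝ)..t, -(k / 2) * PD g V N r) ≤ ∫ r in (0:ℝ)..t, fl g V N r := by
      apply intervalIntegral.integral_mono_on ht.1 (hiD.const_mul _) hif
      intro s hs
      have hs' : s ∈ Icc 0 T := ⟨hs.1, le_trans hs.2 ht.2⟩
      have e1 : ∀ w ∈ lev K N, -(K * sg K g k) * V w s ^ 2 ≤ V w s ^ 2 * ch V w s := by
        intro w hw
        have e2 : -(K * sg K g k) ≤ ch V w s := by
          simp only [ch]
          have : ∑ _i : Fin K, (-sg K g k) ≤ ∑ i : Fin K, V (i :: w) s := by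
            apply Finset.sum_le_sum
            intro i _
            apply hlo _ _ _ hs'
            simp only [List.length_cons, (mem_lev _ _).1 hw]
            omega
          simp only [Finset.sum_const, Finset.card_univ, Fintype.card_fin, nsmul_eq_mul] at this
          linarith
        nlinarith [sq_nonneg (V w s)]
      have e3 := Finset.sum_le_sum e1
      rw [← Finset.mul_sum] at e3
      have e4 : g ^ N * ∑ w ∈ lev K N, V w s ^ 2 ≤ PD g V N s := by
        have e5 : g ^ N * ∑ w ∈ lev K N, V w s ^ 2 = ∑ w ∈ lev K N, g ^ w.length * V w s ^ 2 := by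
          rw [Finset.mul_sum]
          exact Finset.sum_congr rfl fun w hw => by rw [(mem_lev _ _).1 hw]
        rw [e5]
        exact Finset.single_le_sum (f := fun n => ∑ w ∈ lev K n, g ^ w.length * V w s ^ 2)
          (fun n _ => Finset.sum_nonneg fun u _ => by positivity) (Finset.mem_range.2 (by omega))
      have e6 : 0 ≤ g ^ N * ∑ w ∈ lev K N, V w s ^ 2 :=
        mul_nonneg (by positivity) (Finset.sum_nonneg fun w _ => sq_nonneg _)
      have e7 : g ^ (N + 1) * (-(K * sg K g k) * ∑ w ∈ lev K N, V w s ^ 2) ≤ fl g V N s := by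
        simp only [fl]
        exact mul_le_mul_of_nonneg_left e3 (by positivity)
      have e8 : g ^ (N + 1) * (-(K * sg K g k) * ∑ w ∈ lev K N, V w s ^ 2) =
          -(K * g * sg K g k) * (g ^ N * ∑ w ∈ lev K N, V w s ^ 2) := by ring
      rw [e8] at e7
      have e9 : -(k / 2) * PD g V N s ≤
          -(K * g * sg K g k) * (g ^ N * ∑ w ∈ lev K N, V w s ^ 2) := by
        have e10 : K * g * sg K g k * (g ^ N * ∑ w ∈ lev K N, V w s ^ 2) ≤
            k / 2 * PD g V N s := mul_le_mul hsg e4 e6 (by positivity)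
        linarith
      exact le_trans e9 e7
    rw [intervalIntegral.integral_const_mul] at h3
    have h4 : (∫ r in (0:ℝ)..t, 2 * PF L g F V N r) ≤ ∫ r in (0:ℝ)..t, (PE L g V N r + EF) := by
      apply intervalIntegral.integral_mono_on ht.1 (hiF.const_mul _)
        (hiE.add _root_.intervalIntegrable_const)
      intro s hs
      have := PF_le hL0.le hg0.le F V N s
      have := hF.en N s ⟨hs.1, le_trans hs.2 ht.2⟩
      linarith
    rw [intervalIntegral.integral_const_mul] at h4
    have := hE N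
    linarith
  set E1 : ℝ := (E0 + T * EF) * Real.exp T with hE1
  have hE1' : 0 ≤ E1 := by positivity
  have hPE : ∀ N, m ≤ N → ∀ t ∈ Icc 0 T, PE L g V N t ≤ E1 := by
    intro N hN
    apply gron hT.le (PE_cont fun w _ => hVc w) hEF (by positivity)
    intro t ht
    have h1 := key N hN t ht
    have h2 : 0 ≤ ∫ r in (0:ℝ)..t, PD g V N r :=
      intervalIntegral.integral_nonneg ht.1 fun s _ => PD_nonneg hg0.le V N s
    have : 0 ≤ k * ∫ r in (0:ℝ)..t, PD g V N r := by positivity
    linarith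
  have hPD : ∀ N, m ≤ N → (∫ t in (0:ℝ)..T, PD g V N t) ≤ (E0 + T * (E1 + EF)) / k := by
    intro N hN
    have h1 := key N hN T ⟨hT.le, le_refl _⟩
    have h2 : (∫ r in (0:ℝ)..T, (PE L g V N r + EF)) ≤ ∫ r in (0:ℝ)..T, (E1 + EF) := by
      apply intervalIntegral.integral_mono_on hT.le
      · apply IntervalIntegrable.add _ _root_.intervalIntegrable_const
        apply ContinuousOn.intervalIntegrable
        rw [uIcc_of_le hT.le]
        exact PE_cont fun w _ => hVc w
      · exact _root_.intervalIntegrable_const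
      · intro s hs
        have := hPE N hN s hs
        linarith
    rw [intervalIntegral.integral_const, smul_eq_mul, sub_zero] at h2
    have h3 := PE_nonneg hL0.le hg0.le V N T
    rw [le_div_iff₀ hk]
    linarith
  refine ⟨max E1 ((E0 + T * (E1 + EF)) / k), ?_, ?_⟩
  · intro N t ht
    have h1 : PE L g V N t ≤ PE L g V (max N m) t :=
      sm_mono (le_max_left _ _) fun w => by positivity
    exact le_trans (le_trans h1 (hPE _ (le_max_right _ _) t ht)) (le_max_left _ _)
  · intro N
    have h1 : (∫ t in (0:ℝ)..T, PD g V N t) ≤ ∫ t in (0:ℝ)..T, PD g V (max N m) t := by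
      apply intervalIntegral.integral_mono_on hT.le
      · apply ContinuousOn.intervalIntegrable
        rw [uIcc_of_le hT.le]
        exact PD_cont fun w _ => hVc w
      · apply ContinuousOn.intervalIntegrable
        rw [uIcc_of_le hT.le]
        exact PD_cont fun w _ => hVc w
      · intro s _
        exact sm_mono (le_max_left _ _) fun w => by positivity
    exact le_trans (le_trans h1 (hPD _ (le_max_right _ _))) (le_max_right _ _)

/-- the part of generation `N` of the dissipation -/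
noncomputable def lv {K : ℕ} (g : ℝ) (V : Nd K → ℝ → ℝ) (N : ℕ) (t : ℝ) : ℝ :=
  ∑ w ∈ lev K N, g ^ w.length * V w t ^ 2

lemma lv_nonneg {K : ℕ} {g : ℝ} (hg : 0 ≤ g) (V : Nd K → ℝ → ℝ) (N : ℕ) (t : ℝ) :
    0 ≤ lv g V N t := Finset.sum_nonneg fun w _ => by positivity

lemma lv_cont {K : ℕ} {g : ℝ} {V : Nd K → ℝ → ℝ} {s : Set ℝ} (h : ∀ w, ContinuousOn (V w) s)
    (N : ℕ) : ContinuousOn (lv g V N) s := by
  have : lv g V N = fun t => ∑ w ∈ lev K N, g ^ w.length * V w t ^ 2 := rfl
  rw [this]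
  exact continuousOn_finsetSum _ fun w _ => continuousOn_const.mul ((h w).pow 2)

/-- the dissipation of the generation `N` tends to zero -/
lemma lv_tendsto {K : ℕ} {g D T : ℝ} {V : Nd K → ℝ → ℝ} (hg : 0 ≤ g) (hT : 0 ≤ T)
    (hV : ∀ w, ContinuousOn (V w) (Icc 0 T)) (hD : ∀ N, (∫ r in (0:ℝ)..T, PD g V N r) ≤ D) :
    Tendsto (fun N => ∫ r in (0:ℝ)..T, lv g V N r) atTop (𝓝 0) := by
  have hi : ∀ N, IntervalIntegrable (lv g V N) volume 0 T := fun N => by
    apply ContinuousOn.intervalIntegrable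
    rw [uIcc_of_le hT]
    exact lv_cont hV N
  have hsum : ∀ n, ∑ N ∈ Finset.range (n + 1), (∫ r in (0:ℝ)..T, lv g V N r) =
      ∫ r in (0:ℝ)..T, PD g V n r := by
    intro n
    rw [← intervalIntegral.integral_finsetSum fun N _ => hi N]
    rfl
  apply Summable.tendsto_atTop_zero
  apply summable_of_sum_range_le (c := D)
  · exact fun n => intervalIntegral.integral_nonneg hT fun r _ => lv_nonneg hg V n r
  · intro n
    cases n with
    | zero =>
      simp only [Finset.range_zero, Finset.sum_empty]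
      refine le_trans ?_ (hD 0)
      exact intervalIntegral.integral_nonneg hT fun r _ => PD_nonneg hg V 0 r
    | succ n =>
      rw [hsum]
      exact hD n

/-- Job TFX -/
theorem tfx : P_TFX := by
  intro K g M D T V s t hg hs hst htT hV hM hD
  have hT : 0 ≤ T := by linarith
  have hM0 : 0 ≤ M := le_trans (abs_nonneg _) (hM [] s ⟨le_refl _, hst⟩)
  have h1 := (lv_tendsto hg.le hT hV hD).const_mul (g * K * M)
  rw [mul_zero] at h1
  apply squeeze_zero_norm _ h1
  intro N
  have hsub : Icc s t ⊆ Icc 0 T := Icc_subset_Icc hs htT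
  have hVc : ∀ w, ContinuousOn (V w) (Icc s t) := fun w => (hV w).mono hsub
  have hb : ∀ r ∈ Icc s t, |fl g V N r| ≤ g * K * M * lv g V N r := by
    intro r hr
    have e1 : lv g V N r = g ^ N * ∑ w ∈ lev K N, V w r ^ 2 := by
      simp only [lv]
      rw [Finset.mul_sum]
      exact Finset.sum_congr rfl fun w hw => by rw [(mem_lev _ _).1 hw]
    rw [e1]
    simp only [fl]
    rw [abs_mul, abs_of_nonneg (by positivity : (0:ℝ) ≤ g ^ (N + 1))]
    have e2 : |∑ w ∈ lev K N, V w r ^ 2 * ch V w r| ≤ (∑ w ∈ lev K N, V w r ^ 2) * (K * M) := by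
      rw [Finset.sum_mul]
      refine le_trans (Finset.abs_sum_le_sum_abs _ _) (Finset.sum_le_sum fun w _ => ?_)
      rw [abs_mul, abs_of_nonneg (sq_nonneg _)]
      apply mul_le_mul_of_nonneg_left _ (sq_nonneg _)
      simp only [ch]
      refine le_trans (Finset.abs_sum_le_sum_abs _ _) ?_
      refine le_trans (Finset.sum_le_sum fun i _ => hM (i :: w) r hr) ?_
      simp
    calc g ^ (N + 1) * |∑ w ∈ lev K N, V w r ^ 2 * ch V w r|
        ≤ g ^ (N + 1) * ((∑ w ∈ lev K N, V w r ^ 2) * (K * M)) :=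
          mul_le_mul_of_nonneg_left e2 (by positivity)
      _ = g * K * M * (g ^ N * ∑ w ∈ lev K N, V w r ^ 2) := by ring
  have hil : IntervalIntegrable (lv g V N) volume s t := by
    apply ContinuousOn.intervalIntegrable
    rw [uIcc_of_le hst]
    exact lv_cont hVc N
  have hif : IntervalIntegrable (fl g V N) volume s t := by
    apply ContinuousOn.intervalIntegrable
    rw [uIcc_of_le hst]
    exact fl_cont fun w _ => hVc w
  rw [Real.norm_eq_abs]
  refine le_trans (intervalIntegral.abs_integral_le_integral_abs hst) ?_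
  refine le_trans (intervalIntegral.integral_mono_on hst hif.abs (hil.const_mul _) hb) ?_
  rw [intervalIntegral.integral_const_mul]
  apply mul_le_mul_of_nonneg_left _ (by positivity)
  apply intervalIntegral.integral_mono_interval hs hst htT
  · exact Filter.Eventually.of_forall fun r => lv_nonneg hg.le V N r
  · apply ContinuousOn.intervalIntegrable
    rw [uIcc_of_le hT]
    exact lv_cont hV N

/-- Job TTIME -/
theorem ttime : P_TTIME := by
  intro K g T D τ W Q hg hτ hτT hW hD hQ
  have hg0 : 0 < g := by linarith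
  have hT : 0 < T := by linarith
  set μ : Measure ℝ := volume.restrict (Ioc 0 T) with hμ
  have hPDc : ∀ N, ContinuousOn (PD g W N) (Icc 0 T) := fun N => PD_cont fun w _ => hW w
  have hmeas : ∀ N, AEMeasurable (fun s => ENNReal.ofReal (PD g W N s)) μ := fun N =>
    (((hPDc N).mono Ioc_subset_Icc_self).aemeasurable measurableSet_Ioc).ennreal_ofReal
  have hlint : ∀ N, ∫⁻ s, ENNReal.ofReal (PD g W N s) ∂μ ≤ ENNReal.ofReal D := by
    intro N
    rw [← ofReal_integral_eq_lintegral_ofReal]
    · apply ENNReal.ofReal_le_ofReal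
      have := hD N
      rw [intervalIntegral.integral_of_le hT.le] at this
      exact this
    · exact ((hPDc N).integrableOn_Icc).mono_set Ioc_subset_Icc_self
    · exact Filter.Eventually.of_forall fun s => PD_nonneg hg0.le W N s
  have hmono : ∀ s, Monotone fun N => ENNReal.ofReal (PD g W N s) := by
    intro s N N' hN
    apply ENNReal.ofReal_le_ofReal
    exact sm_mono hN fun w => by positivity
  have hsup : ∫⁻ s, ⨆ N, ENNReal.ofReal (PD g W N s) ∂μ ≤ ENNReal.ofReal D := by
    rw [lintegral_iSup' hmeas (Filter.Eventually.of_forall hmono)]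
    exact iSup_le hlint
  have hfin : ∀ᵐ s ∂μ, ⨆ N, ENNReal.ofReal (PD g W N s) < ⊤ :=
    ae_lt_top' (AEMeasurable.iSup hmeas)
      (ne_of_lt (lt_of_le_of_lt hsup ENNReal.ofReal_lt_top))
  have hfin2 : ∀ᵐ s : ℝ, s ∈ Ioc 0 T → ⨆ N, ENNReal.ofReal (PD g W N s) < ⊤ :=
    (ae_restrict_iff' measurableSet_Ioc).1 hfin
  have hex : ∃ s ∈ Ioo 0 τ, (s ∈ Ioc 0 T → ⨆ N, ENNReal.ofReal (PD g W N s) < ⊤) ∧
      (s ∈ Icc 0 T → Q s) := by
    by_contra hcon
    push Not at hcon
    have h1 : ∀ᵐ s : ℝ, s ∉ Ioo 0 τ := by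
      filter_upwards [hfin2, hQ] with s h1 h2 h3
      exact hcon s h3 h1 |>.2 (h2 (hcon s h3 h1).1)
    have h2 : volume (Ioo 0 τ) = 0 := by
      rw [ae_iff] at h1
      have e : {a : ℝ | ¬ a ∉ Ioo 0 τ} = Ioo 0 τ := by
        ext a
        simp only [mem_ofPred_eq, not_not]
      rwa [e] at h1
    rw [Real.volume_Ioo] at h2
    rw [ENNReal.ofReal_eq_zero] at h2
    linarith
  obtain ⟨s, hs, hs1, hs2⟩ := hex
  have hsI : s ∈ Ioc 0 T := ⟨hs.1, by linarith [hs.2]⟩
  refine ⟨s, hs.1, hs.2, hs2 ⟨hs.1.le, hsI.2⟩, ?_⟩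
  have hlt := hs1 hsI
  set S : ENNReal := ⨆ N, ENNReal.ofReal (PD g W N s) with hS
  have hbd : ∀ N, PD g W N s ≤ S.toReal := by
    intro N
    have h1 : ENNReal.ofReal (PD g W N s) ≤ S := le_iSup (fun N => ENNReal.ofReal (PD g W N s)) N
    have h2 := ENNReal.toReal_mono hlt.ne h1
    rwa [ENNReal.toReal_ofReal (PD_nonneg hg0.le W N s)] at h2
  have hsum : Summable (fun N => lv g W N s) := by
    apply summable_of_sum_range_le (c := S.toReal)
    · exact fun n => lv_nonneg hg0.le W n s
    · intro n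
      cases n with
      | zero =>
        simp only [Finset.range_zero, Finset.sum_empty]
        exact ENNReal.toReal_nonneg
      | succ n => exact hbd n
  have hz := hsum.tendsto_atTop_zero
  intro ε hε
  obtain ⟨m, hm⟩ := Filter.eventually_atTop.1 (hz.eventually (gt_mem_nhds (pow_pos hε 2)))
  refine ⟨m, fun w hw => ?_⟩
  have h1 := hm w.length hw
  have h2 : g ^ w.length * W w s ^ 2 ≤ lv g W w.length s :=
    Finset.single_le_sum (f := fun u : Nd K => g ^ u.length * W u s ^ 2)
      (fun u _ => by positivity) ((mem_lev _ _).2 rfl)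
  have h3 : 1 ≤ g ^ w.length := one_le_pow₀ hg
  have h4 : W w s ^ 2 ≤ ε ^ 2 := by nlinarith [sq_nonneg (W w s)]
  exact abs_le_of_sq_le_sq h4 hε.le

end Pool.Agent.Q58.DT
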