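import Pool.Agent.Q186.DT.Stm

/-!
# Project DT, job TEN: the energy identity of the generations up to `N`
-/

namespace Pool.Agent.Q58.DT

open Set Filter Topology MeasureTheory Pool.Agent.Q186.DT

lemma sm_zero {K : ℕ} (f : Nd K → ℝ) : sm 0 f = f [] := by
  simp [sm, sum_lev_zero]

lemma sm_succ {K : ℕ} (N : ℕ) (f : Nd K → ℝ) :
    sm (N + 1) f = sm N f + ∑ w ∈ lev K (N + 1), f w := by
  simp only [sm]
  rw [Finset.sum_range_succ]

lemma sm_congr {K : ℕ} {N : ℕ} {f f' : Nd K → ℝ} (h : ∀ w : Nd K, w.length ≤ N → f w = f' w) :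
    sm N f = sm N f' := by
  apply Finset.sum_congr rfl
  intro n hn
  apply Finset.sum_congr rfl
  intro w hw
  apply h
  rw [(mem_lev n w).1 hw]
  exact Nat.lt_succ_iff.1 (Finset.mem_range.1 hn)

lemma sm_le_sm {K : ℕ} {N : ℕ} {f f' : Nd K → ℝ} (h : ∀ w : Nd K, w.length ≤ N → f w ≤ f' w) :
    sm N f ≤ sm N f' := by
  apply Finset.sum_le_sum
  intro n hn
  apply Finset.sum_le_sum
  intro w hw
  apply h
  rw [(mem_lev n w).1 hw]
  exact Nat.lt_succ_iff.1 (Finset.mem_range.1 hn)

lemma sm_nonneg {K : ℕ} {N : ℕ} {f : Nd K → ℝ} (h : ∀ w : Nd K, w.length ≤ N → 0 ≤ f w) :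
    0 ≤ sm N f := by
  apply Finset.sum_nonneg
  intro n hn
  apply Finset.sum_nonneg
  intro w hw
  apply h
  rw [(mem_lev n w).1 hw]
  exact Nat.lt_succ_iff.1 (Finset.mem_range.1 hn)

lemma sm_add {K : ℕ} {N : ℕ} (f f' : Nd K → ℝ) :
    sm N (fun w => f w + f' w) = sm N f + sm N f' := by
  simp only [sm, Finset.sum_add_distrib]

lemma sm_mul {K : ℕ} {N : ℕ} (c : ℝ) (f : Nd K → ℝ) :
    sm N (fun w => c * f w) = c * sm N f := by
  simp only [sm, Finset.mul_sum]

lemma sm_mono {K : ℕ} {N N' : ℕ} (hN : N ≤ N') {f : Nd K → ℝ} (h : ∀ w, 0 ≤ f w) :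
    sm N f ≤ sm N' f := by
  induction N', hN using Nat.le_induction with
  | base => exact le_refl _
  | succ n _ ih =>
    rw [sm_succ]
    have : 0 ≤ ∑ w ∈ lev K (n + 1), f w := Finset.sum_nonneg fun w _ => h w
    linarith

lemma le_sm {K : ℕ} {N : ℕ} {f : Nd K → ℝ} (h : ∀ w, 0 ≤ f w) (w : Nd K) (hw : w.length ≤ N) :
    f w ≤ sm N f := by
  have h1 : f w ≤ ∑ u ∈ lev K w.length, f u :=
    Finset.single_le_sum (f := f) (fun u _ => h u) ((mem_lev _ _).2 rfl)
  have h2 : ∑ u ∈ lev K w.length, f u ≤ sm N f :=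
    Finset.single_le_sum (f := fun n => ∑ u ∈ lev K n, f u)
      (fun n _ => Finset.sum_nonneg fun u _ => h u) (Finset.mem_range.2 (Nat.lt_succ_iff.2 hw))
  exact le_trans h1 h2

lemma sm_cont {K : ℕ} {N : ℕ} {f : Nd K → ℝ → ℝ} {s : Set ℝ}
    (h : ∀ w : Nd K, w.length ≤ N → ContinuousOn (f w) s) :
    ContinuousOn (fun t => sm N fun w => f w t) s := by
  apply continuousOn_finsetSum
  intro n hn
  apply continuousOn_finsetSum
  intro w hw
  apply h
  rw [(mem_lev n w).1 hw]
  exact Nat.lt_succ_iff.1 (Finset.mem_range.1 hn)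

lemma sm_deriv {K : ℕ} {N : ℕ} {f f' : Nd K → ℝ → ℝ} {s : Set ℝ} {t : ℝ}
    (h : ∀ w : Nd K, w.length ≤ N → HasDerivWithinAt (f w) (f' w t) s t) :
    HasDerivWithinAt (fun t => sm N fun w => f w t) (sm N fun w => f' w t) s t := by
  simp only [sm]
  apply HasDerivWithinAt.fun_sum
  intro n hn
  apply HasDerivWithinAt.fun_sum
  intro w hw
  apply h
  rw [(mem_lev n w).1 hw]
  exact Nat.lt_succ_iff.1 (Finset.mem_range.1 hn)

lemma ch_cont {K : ℕ} {V : Nd K → ℝ → ℝ} {s : Set ℝ} (w : Nd K)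
    (h : ∀ i : Fin K, ContinuousOn (V (i :: w)) s) : ContinuousOn (ch V w) s := by
  have : ch V w = fun t => ∑ i : Fin K, V (i :: w) t := rfl
  rw [this]
  exact continuousOn_finsetSum _ fun i _ => h i

lemma PE_cont {K : ℕ} {L g : ℝ} {V : Nd K → ℝ → ℝ} {N : ℕ} {s : Set ℝ}
    (h : ∀ w : Nd K, w.length ≤ N → ContinuousOn (V w) s) : ContinuousOn (PE L g V N) s := by
  have : PE L g V N = fun t => sm N fun w => (g / L) ^ w.length * V w t ^ 2 := rfl
  rw [this]
  exact sm_cont (f := fun w t => (g / L) ^ w.length * V w t ^ 2) fun w hw =>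
    continuousOn_const.mul ((h w hw).pow 2)

lemma PD_cont {K : ℕ} {g : ℝ} {V : Nd K → ℝ → ℝ} {N : ℕ} {s : Set ℝ}
    (h : ∀ w : Nd K, w.length ≤ N → ContinuousOn (V w) s) : ContinuousOn (PD g V N) s := by
  have : PD g V N = fun t => sm N fun w => g ^ w.length * V w t ^ 2 := rfl
  rw [this]
  exact sm_cont (f := fun w t => g ^ w.length * V w t ^ 2) fun w hw =>
    continuousOn_const.mul ((h w hw).pow 2)

lemma PF_cont {K : ℕ} {L g : ℝ} {F V : Nd K → ℝ → ℝ} {N : ℕ} {s : Set ℝ}
    (hF : ∀ w, ContinuousOn (F w) s)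
    (h : ∀ w : Nd K, w.length ≤ N → ContinuousOn (V w) s) : ContinuousOn (PF L g F V N) s := by
  have : PF L g F V N = fun t => sm N fun w => (g / L) ^ w.length * (V w t * F w t) := rfl
  rw [this]
  exact sm_cont (f := fun w t => (g / L) ^ w.length * (V w t * F w t)) fun w hw =>
    continuousOn_const.mul ((h w hw).mul (hF w))

lemma fl_cont {K : ℕ} {g : ℝ} {V : Nd K → ℝ → ℝ} {N : ℕ} {s : Set ℝ}
    (h : ∀ w : Nd K, w.length ≤ N + 1 → ContinuousOn (V w) s) : ContinuousOn (fl g V N) s := by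
  have : fl g V N = fun t => g ^ (N + 1) * ∑ w ∈ lev K N, V w t ^ 2 * ch V w t := rfl
  rw [this]
  apply continuousOn_const.mul
  apply continuousOn_finsetSum
  intro w hw
  have hl := (mem_lev N w).1 hw
  exact ((h w (by omega)).pow 2).mul (ch_cont w fun i => h _ (by simp [hl]))

/-- the telescoping identity -/
lemma ten_alg {K : ℕ} {L g k : ℝ} (hL : 0 < L) (F V : Nd K → ℝ → ℝ) (N : ℕ) (t : ℝ) :
    sm N (fun w => (g / L) ^ w.length * (2 * V w t * vf L g k F V w t)) =
      -(2 * k * PD g V N t) - 2 * fl g V N t + 2 * PF L g F V N t := by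
  induction N with
  | zero =>
    simp only [PD, PF, fl, sm_zero, sum_lev_zero, vf, List.length_nil, pow_zero, one_mul, pr_nil]
    ring
  | succ N ih =>
    rw [sm_succ, ih]
    have e1 : PD g V (N + 1) t = PD g V N t + ∑ w ∈ lev K (N + 1), g ^ w.length * V w t ^ 2 := by
      simp only [PD]
      rw [sm_succ]
    have e2 : PF L g F V (N + 1) t = PF L g F V N t +
        ∑ w ∈ lev K (N + 1), (g / L) ^ w.length * (V w t * F w t) := by
      simp only [PF]
      rw [sm_succ]
    have e3 : fl g V N t = ∑ w ∈ lev K (N + 1), g ^ (N + 1) * (pr V w t ^ 2 * V w t) := by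
      rw [sum_lev_succ]
      simp only [fl, pr_cons, ch]
      rw [Finset.mul_sum]
      apply Finset.sum_congr rfl
      intro w _
      rw [Finset.mul_sum, Finset.mul_sum]
    have e4 : fl g V (N + 1) t = ∑ w ∈ lev K (N + 1), g ^ (N + 2) * (V w t ^ 2 * ch V w t) := by
      simp only [fl]
      rw [Finset.mul_sum]
    have e5 : ∑ w ∈ lev K (N + 1), (g / L) ^ w.length * (2 * V w t * vf L g k F V w t) =
        2 * (∑ w ∈ lev K (N + 1), g ^ (N + 1) * (pr V w t ^ 2 * V w t)) -
        2 * (∑ w ∈ lev K (N + 1), g ^ (N + 2) * (V w t ^ 2 * ch V w t)) -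
        2 * k * (∑ w ∈ lev K (N + 1), g ^ w.length * V w t ^ 2) +
        2 * ∑ w ∈ lev K (N + 1), (g / L) ^ w.length * (V w t * F w t) := by
      rw [Finset.mul_sum, Finset.mul_sum, Finset.mul_sum, Finset.mul_sum,
        ← Finset.sum_sub_distrib, ← Finset.sum_sub_distrib, ← Finset.sum_add_distrib]
      apply Finset.sum_congr rfl
      intro w hw
      rw [(mem_lev _ _).1 hw, vf, (mem_lev _ _).1 hw, div_pow]
      have hL' : L ≠ 0 := hL.ne'
      field_simp
      ring
    rw [e5, e1, e2, e4, ← e3]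
    ring

lemma PE_deriv {K : ℕ} {L g k T : ℝ} (hL : 0 < L) {F V : Nd K → ℝ → ℝ} {N : ℕ} {t : ℝ}
    (h : ∀ w : Nd K, w.length ≤ N →
      HasDerivWithinAt (V w) (vf L g k F V w t) (Icc 0 T) t) :
    HasDerivWithinAt (PE L g V N)
      (-(2 * k * PD g V N t) - 2 * fl g V N t + 2 * PF L g F V N t) (Icc 0 T) t := by
  have h1 : HasDerivWithinAt (fun t => sm N fun w => (g / L) ^ w.length * V w t ^ 2)
      (sm N fun w => (g / L) ^ w.length * (2 * V w t * vf L g k F V w t)) (Icc 0 T) t :=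
    sm_deriv (f := fun w t => (g / L) ^ w.length * V w t ^ 2)
      (f' := fun w t => (g / L) ^ w.length * (2 * V w t * vf L g k F V w t)) fun w hw => by
      have h2 := ((h w hw).pow 2).const_mul ((g / L) ^ w.length)
      have e : (g / L) ^ w.length * (((2 : ℕ) : ℝ) * V w t ^ (2 - 1) * vf L g k F V w t) =
          (g / L) ^ w.length * (2 * V w t * vf L g k F V w t) := by
        norm_num
      rw [e] at h2
      exact h2
  rw [ten_alg hL] at h1
  exact h1

/-- Job TEN -/
theorem ten : P_TEN := by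
  intro K L g k T F V N hL hg hF hV hd s t hs hst htT
  have hsub : Icc s t ⊆ Icc 0 T := Icc_subset_Icc hs htT
  have hFc : ∀ w, ContinuousOn (F w) (Icc s t) := fun w => (hF w).mono hsub
  have hVc : ∀ w : Nd K, w.length ≤ N + 1 → ContinuousOn (V w) (Icc s t) :=
    fun w hw => (hV w hw).mono hsub
  have hVc' : ∀ w : Nd K, w.length ≤ N → ContinuousOn (V w) (Icc s t) :=
    fun w hw => hVc w (by omega)
  have hi1 : IntervalIntegrable (PD g V N) volume s t := by
    apply ContinuousOn.intervalIntegrable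
    rw [uIcc_of_le hst]
    exact PD_cont hVc'
  have hi2 : IntervalIntegrable (fl g V N) volume s t := by
    apply ContinuousOn.intervalIntegrable
    rw [uIcc_of_le hst]
    exact fl_cont hVc
  have hi3 : IntervalIntegrable (PF L g F V N) volume s t := by
    apply ContinuousOn.intervalIntegrable
    rw [uIcc_of_le hst]
    exact PF_cont hFc hVc'
  have h1 := intervalIntegral.integral_eq_sub_of_hasDerivAt_of_le hst
    (f := PE L g V N)
    (f' := fun t => -(2 * k * PD g V N t) - 2 * fl g V N t + 2 * PF L g F V N t)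
    (PE_cont hVc')
    (fun x hx => (PE_deriv hL (T := T) fun w hw =>
      hd w hw x ⟨by linarith [hx.1], by linarith [hx.2]⟩).hasDerivAt
      (Icc_mem_nhds (by linarith [hx.1]) (by linarith [hx.2])))
    ((((hi1.const_mul _).neg).sub (hi2.const_mul _)).add (hi3.const_mul _))
  have h2 : (∫ r in s..t, (-(2 * k * PD g V N r) - 2 * fl g V N r + 2 * PF L g F V N r)) =
      -(2 * k * ∫ r in s..t, PD g V N r) - 2 * (∫ r in s..t, fl g V N r) +
        2 * ∫ r in s..t, PF L g F V N r := by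
    rw [← intervalIntegral.integral_const_mul, ← intervalIntegral.integral_const_mul,
      ← intervalIntegral.integral_const_mul,
      ← intervalIntegral.integral_neg, ← intervalIntegral.integral_sub,
      ← intervalIntegral.integral_add]
    · exact ((hi1.const_mul _).neg).sub (hi2.const_mul _)
    · exact hi3.const_mul _
    · exact (hi1.const_mul _).neg
    · exact hi2.const_mul _
  rw [h2] at h1
  linarith

end Pool.Agent.Q58.DT
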